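import Mathlib
import Pool.Agent.H.MP_b47357_gt.Main

set_option autoImplicit false

namespace Pool.Agent.H.MP_ed8104_gt

open Set Topology Function TopologicalSpace
open Cardinal hiding univ

abbrev L : Type := (ℵ₁ : Cardinal.{0}).out

abbrev J : Type := (ℕ × L) ⊕ (ℕ → Finset L)

instance : Uncountable L := by
  rw [← aleph0_lt_mk_iff, mk_out]
  exact aleph0_lt_aleph_one

lemma ex_emb : ∃ E : J → ℕ → Bool, Injective E := by
  have h0 : #L ≤ 𝔠 := (mk_out _).trans_le aleph_one_le_continuum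
  have h : #J ≤ #(ℕ → Bool) := by
    have e : #(ℕ → Bool) = 𝔠 := by simp
    rw [e, mk_sum, lift_id, lift_id]
    refine add_le_of_le aleph0_le_continuum ?_ ?_
    · rw [mk_prod, lift_id, lift_id, mk_nat]
      exact mul_le_of_le aleph0_le_continuum aleph0_le_continuum h0
    · rw [← power_def, mk_nat, mk_finset_of_infinite]
      exact (power_le_power_right h0).trans continuum_power_aleph0.le
  exact let ⟨j⟩ := (le_def _ _).1 h; ⟨j, j.injective⟩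

noncomputable def E : J → ℕ → Bool := ex_emb.choose

lemma sep {P Q : Set J} (hP : P.Finite) (hQ : Q.Finite) (h : Disjoint P Q) :
    ∃ C : Clopens (ℕ → Bool), (∀ i ∈ P, E i ∈ C) ∧ ∀ i ∈ Q, E i ∉ C := by
  obtain ⟨C, h1, h2, h3⟩ := exists_clopen_of_closed_subset_open (hP.image E).isClosed
    (hQ.image E).isClosed.isOpen_compl (Disjoint.subset_compl_right
      (disjoint_image_of_injective ex_emb.choose_spec h))
  exact ⟨⟨C, h1⟩, fun i hi => h2 ⟨i, hi, rfl⟩, fun i hi h4 => h3 h4 ⟨i, hi, rfl⟩⟩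

open Classical in
noncomputable def pt (q : Finset (ℕ × L) × L × Clopens (ℕ → Bool)) : J → Bool :=
  Sum.elim (fun b => decide (b ∈ q.1 ∨ b.2 = q.2.1)) fun f =>
    decide (E (.inr f) ∈ q.2.2 ∧ (∀ n, q.2.1 ∉ f n) ∧ ∀ b ∈ q.1, b.2 ∉ f b.1)

def X : Set (J → Bool) := range pt

lemma card_X : #X ≤ ℵ₁ := by
  refine mk_range_le.trans ?_
  have : Countable (Clopens (ℕ → Bool)) := Clopens.countable_iff_secondCountable.2 inferInstance
  have h0 : ℵ₀ ≤ ℵ₁ := aleph0_le_aleph _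
  rw [mk_prod, mk_prod, mk_finset_of_infinite, mk_prod]
  simp only [lift_id, mk_out, mk_nat]
  exact mul_le_of_le h0 (mul_le_of_le h0 h0 le_rfl)
    (mul_le_of_le h0 le_rfl (mk_le_aleph0.trans h0))

lemma incomp (x : X) {f : ℕ → Finset L} {b : ℕ × L} (h : x.1 (.inr f) = true) (hb : b.2 ∈ f b.1) :
    x.1 (.inl b) = false := by
  obtain ⟨_, q, rfl⟩ := x
  simp only [pt, Sum.elim_inr, decide_eq_true_eq] at h
  simp only [pt, Sum.elim_inl, decide_eq_false_iff_not, not_or]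
  exact ⟨fun h1 => h.2.2 b h1 hb, fun h1 => h.2.1 b.1 (h1 ▸ hb)⟩

lemma fresh {s : Set L} (hs : s.Countable) : ∃ a, a ∉ s := by
  by_contra h
  push Not at h
  exact not_countable_univ (hs.mono fun a _ => h a)

def Ty (U : Set X) (t : ℕ × Clopens (ℕ → Bool)) : Prop :=
  ∃ (x : X) (D : Finset J), (∀ b, .inl b ∈ D → b.1 < t.1) ∧
    (∀ i ∈ D, E i ∈ t.2 ↔ x.1 i = true) ∧
    (∀ f, .inr f ∈ D → x.1 (.inr f) = true → ∀ n < t.1, ∀ a ∈ f n, E (.inl (n, a)) ∉ t.2) ∧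
    ∀ z : X, (∀ i ∈ D, z.1 i = x.1 i) → z ∈ U

lemma ex_ty {U : Set X} (hU : IsOpen U) (hne : U.Nonempty) : ∃ t, Ty U t := by
  classical
  obtain ⟨x, hx⟩ := hne
  obtain ⟨D, hD⟩ := MP_b47357_gt.nhds_cyl hU hx
  obtain ⟨m, hm⟩ := (D.toLeft.image Prod.fst).exists_nat_subset_range
  obtain ⟨C, h1, h2⟩ := sep (P := {i | i ∈ D ∧ x.1 i = true})
    (Q := {i | i ∈ D ∧ x.1 i = false} ∪ ⋃ f ∈ D.toRight.filter (fun f => x.1 (.inr f) = true),
      ⋃ n ∈ Iio m, (fun a => .inl (n, a)) '' f n)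
    (D.finite_toSet.subset fun i hi => hi.1) ((D.finite_toSet.subset fun i hi => hi.1).union
      ((Finset.finite_toSet _).biUnion fun f _ => (finite_Iio m).biUnion fun n _ =>
        (f n).finite_toSet.image _)) (disjoint_left.2 (by
      rintro i ⟨-, h1⟩ (h2 | h2)
      · simp [h2.2] at h1
      · simp only [mem_iUnion, mem_image, Finset.mem_filter] at h2
        obtain ⟨f, h2, n, -, a, h3, rfl⟩ := h2
        simp [incomp x (b := (n, a)) h2.2 h3] at h1))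
  refine ⟨(m, C), x, D, fun b hb => Finset.mem_range.1 (hm (Finset.mem_image_of_mem _
    (Finset.mem_toLeft.2 hb))), fun i hi => ⟨fun h => ?_, fun h => h1 i ⟨hi, h⟩⟩,
    fun f h3 h4 n h5 a h6 => h2 _ (Or.inr (mem_iUnion₂.2 ⟨f, Finset.mem_filter.2
      ⟨Finset.mem_toRight.2 h3, h4⟩, mem_iUnion₂.2 ⟨n, h5, a, h6, rfl⟩⟩)), hD⟩
  by_contra h3
  exact h2 i (Or.inl ⟨hi, by simpa using h3⟩) h

lemma ty_meet {U V : Set X} {t} (hU : Ty U t) (hV : Ty V t) : (U ∩ V).Nonempty := by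
  classical
  obtain ⟨x, D, a1, a2, a3, a4⟩ := hU
  obtain ⟨y, F, b1, b2, b3, b4⟩ := hV
  obtain ⟨c, hc⟩ := fresh (s := Prod.snd '' ((D ∪ F).toLeft : Set (ℕ × L)) ∪
    ⋃ f ∈ ((D ∪ F).toRight : Set (ℕ → Finset L)), ⋃ n, (f n : Set L))
    (((Finset.countable_toSet _).image _).union ((Finset.countable_toSet _).biUnion fun f _ =>
      countable_iUnion fun n => (f n).countable_toSet))
  let a := (D ∪ F).toLeft.filter fun b => E (.inl b) ∈ t.2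
  have key : ∀ (w : X) (G : Finset J), G ⊆ D ∪ F → (∀ i ∈ G, E i ∈ t.2 ↔ w.1 i = true) →
      (∀ f, .inr f ∈ G → w.1 (.inr f) = true → ∀ n < t.1, ∀ a ∈ f n, E (.inl (n, a)) ∉ t.2) →
      ∀ i ∈ G, pt (a, c, t.2) i = w.1 i := by
    rintro w G h1 h2 h3 (b | f) hi <;> rw [Bool.eq_iff_iff, ← h2 _ hi]
    · have h4 : b.2 ≠ c := fun e => hc (Or.inl ⟨b, Finset.mem_toLeft.2 (h1 hi), e⟩)
      simp only [pt, a, Sum.elim_inl, decide_eq_true_eq, h4, or_false, Finset.mem_filter,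
        Finset.mem_toLeft, h1 hi, true_and]
    · simp only [pt, Sum.elim_inr, decide_eq_true_eq]
      refine ⟨And.left, fun h => ⟨h, fun n h4 => hc (Or.inr (mem_iUnion₂.2
        ⟨f, Finset.mem_toRight.2 (h1 hi), mem_iUnion.2 ⟨n, h4⟩⟩)), fun b hb h4 => ?_⟩⟩
      obtain ⟨h5, h6⟩ := Finset.mem_filter.1 hb
      exact h3 f hi ((h2 _ hi).1 h) b.1
        ((Finset.mem_union.1 (Finset.mem_toLeft.1 h5)).elim (a1 b) (b1 b)) b.2 h4 h6
  exact ⟨⟨_, (a, c, t.2), rfl⟩, a4 _ (key x D Finset.subset_union_left a2 a3),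
    b4 _ (key y F Finset.subset_union_right b2 b3)⟩

theorem wl (𝒰 : Set (Set X)) (h1 : ∀ U ∈ 𝒰, IsOpen U) (h2 : ⋃₀ 𝒰 = univ) :
    ∃ 𝒱 ⊆ 𝒰, 𝒱.Countable ∧ Dense (⋃₀ 𝒱) := by
  have : Countable (Clopens (ℕ → Bool)) := Clopens.countable_iff_secondCountable.2 inferInstance
  choose U h3 h4 using fun t : {t // ∃ U ∈ 𝒰, Ty U t} => t.2
  refine ⟨range U, range_subset_iff.2 h3, countable_range U,
    dense_iff_inter_open.2 fun G hG ⟨x, hx⟩ => ?_⟩
  obtain ⟨O, h5, h6⟩ : x ∈ ⋃₀ 𝒰 := h2 ▸ mem_univ x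
  obtain ⟨t, ht⟩ := ex_ty (hG.inter (h1 O h5)) ⟨x, hx, h6⟩
  have h7 : Ty O t := let ⟨x, D, a, b, c, d⟩ := ht; ⟨x, D, a, b, c, fun z hz => (d z hz).2⟩
  obtain ⟨z, h8, h9⟩ := ty_meet ht (h4 ⟨t, O, h5, h7⟩)
  exact ⟨z, h8.1, _, ⟨_, rfl⟩, h9⟩

lemma co_open (i : J) : IsOpen {x : X | x.1 i = true} :=
  (isOpen_discrete {true}).preimage
    (show Continuous fun x : X => x.1 i from (continuous_apply i).comp continuous_subtype_val)

theorem not_wm : ∃ 𝒰 : ℕ → Set (Set X), (∀ n, ∀ U ∈ 𝒰 n, IsOpen U) ∧ (∀ n, ⋃₀ 𝒰 n = univ) ∧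
    ∀ 𝒱 : ℕ → Set (Set X), (∀ n, 𝒱 n ⊆ 𝒰 n ∧ (𝒱 n).Finite) → ¬ Dense (⋃ n, ⋃₀ 𝒱 n) := by
  refine ⟨fun n => range fun a => {x : X | x.1 (.inl (n, a)) = true},
    fun n => forall_mem_range.2 fun a => co_open _, fun n => eq_univ_of_forall ?_,
    fun 𝒱 h1 h2 => ?_⟩
  · rintro ⟨_, q, rfl⟩
    exact ⟨_, ⟨q.2.1, rfl⟩, by simp [pt]⟩
  · have : Nonempty L := inferInstance
    choose! a ha using fun n U (hU : U ∈ 𝒱 n) => (h1 n).1 hU
    let f : ℕ → Finset L := fun n => ((h1 n).2.image (a n)).toFinset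
    obtain ⟨c, hc⟩ := fresh (s := ⋃ n, (f n : Set L)) (countable_iUnion fun n => (f n).countable_toSet)
    obtain ⟨x, h3, h4⟩ := h2.inter_open_nonempty _ (co_open (.inr f))
      ⟨⟨_, (∅, c, ⊤), rfl⟩, by simpa [pt] using ⟨trivial, by simpa using hc⟩⟩
    obtain ⟨n, U, h5, h6⟩ := mem_iUnion.1 h4
    have h7 := incomp x (b := (n, a n U)) h3 ((Finite.mem_toFinset _).2 ⟨U, h5, rfl⟩)
    rw [← ha n U h5] at h6
    simp [h7] at h6

end Pool.Agent.H.MP_ed8104_gt
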